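import Mathlib
import Pool.Agent.K1H34.UNI.Stm
import Pool.Agent.Helper133.Brouwer

set_option autoImplicit false

/-!
# Task 67 (UNI5): `S_LEV`, the levels from the fixed point theorem of Brouwer
-/

namespace Pool.Agent.K1H10.UNI

open Finset Classical Pool.Agent.K1H34.UNI

section

variable {V : Type} [Fintype V] {L : ℕ}

/-- the levels, with `Z 0 = 1` and `Z l = 0` for `l > L` -/
noncomputable def Z (z : V × Fin L → ℝ) (v : V) : ℕ → ℝ
  | 0 => 1
  | (k + 1) => if hk : k < L then z (v, ⟨k, hk⟩) else 0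

noncomputable def Y (z : V × Fin L → ℝ) (p : V × Fin L) : ℝ :=
  min 1 (2 * Z z p.1 p.2) * min 1 (2 - 2 * Z z p.1 ((p.2 : ℕ) + 1))

noncomputable def Phi (G : SimpleGraph V) (H : (V × Fin L → ℝ) → V × Fin L → ℝ) (h B : ℝ)
    (z : V × Fin L → ℝ) (p : V × Fin L) : ℝ :=
  max (min 1 (H (Y z) p / (2 * h)))
    (max (min 1 ((∑ u ∈ nb G p.1, Z z u ((p.2 : ℕ) + 2)) / B)) (Z z p.1 ((p.2 : ℕ) + 2)))

/-- the box -/
def Box (z : V × Fin L → ℝ) : Prop := ∀ p, 0 ≤ z p ∧ z p ≤ 1

/-- truncation to the box -/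
noncomputable def clamp (z : V × Fin L → ℝ) (p : V × Fin L) : ℝ := max 0 (min 1 (z p))

omit [Fintype V] in
lemma clamp_box (z : V × Fin L → ℝ) : Box (clamp z) := by
  intro p
  exact ⟨le_max_left _ _, max_le zero_le_one (min_le_left _ _)⟩

omit [Fintype V] in
lemma clamp_eq {z : V × Fin L → ℝ} (hz : Box z) : clamp z = z := by
  funext p
  simp only [clamp]
  rw [min_eq_right (hz p).2, max_eq_right (hz p).1]

omit [Fintype V] in
lemma continuous_clamp : Continuous (clamp : (V × Fin L → ℝ) → V × Fin L → ℝ) := by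
  refine continuous_pi fun p => ?_
  unfold clamp
  fun_prop

omit [Fintype V] in
lemma continuous_Z (v : V) (k : ℕ) : Continuous (fun z : V × Fin L → ℝ => Z z v k) := by
  cases k with
  | zero => exact continuous_const
  | succ k =>
    by_cases hk : k < L
    · simp only [Z, hk, dite_true]
      exact continuous_apply _
    · simp only [Z, hk, dite_false]
      exact continuous_const

omit [Fintype V] in
lemma Z_box {z : V × Fin L → ℝ} (hz : Box z) (v : V) (k : ℕ) : 0 ≤ Z z v k ∧ Z z v k ≤ 1 := by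
  cases k with
  | zero => exact ⟨zero_le_one, le_refl _⟩
  | succ k =>
    by_cases hk : k < L
    · simp only [Z, hk, dite_true]
      exact hz _
    · simp only [Z, hk, dite_false]
      exact ⟨le_refl _, zero_le_one⟩

omit [Fintype V] in
lemma continuous_Y : Continuous (Y : (V × Fin L → ℝ) → V × Fin L → ℝ) := by
  refine continuous_pi fun p => ?_
  unfold Y
  have h1 := continuous_Z (L := L) p.1 p.2
  have h2 := continuous_Z (L := L) p.1 ((p.2 : ℕ) + 1)
  fun_prop

omit [Fintype V] in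
lemma Y_box {z : V × Fin L → ℝ} (hz : Box z) : Box (Y z) := by
  intro p
  have h1 := Z_box hz p.1 p.2
  have h2 := Z_box hz p.1 ((p.2 : ℕ) + 1)
  have e1 : 0 ≤ min 1 (2 * Z z p.1 p.2) := le_min zero_le_one (by linarith)
  have e2 : 0 ≤ min 1 (2 - 2 * Z z p.1 ((p.2 : ℕ) + 1)) := le_min zero_le_one (by linarith)
  exact ⟨mul_nonneg e1 e2, mul_le_one₀ (min_le_left _ _) e2 (min_le_left _ _)⟩

omit [Fintype V] in
lemma Y_le {z : V × Fin L → ℝ} (hz : Box z) (v : V) (l : Fin L) :
    Y z (v, l) ≤ 2 * Z z v l := by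
  have h1 := Z_box hz v l
  have h2 := Z_box hz v ((l : ℕ) + 1)
  have e2 : 0 ≤ min 1 (2 - 2 * Z z v ((l : ℕ) + 1)) := le_min zero_le_one (by linarith)
  have e1 : 0 ≤ min 1 (2 * Z z v l) := le_min zero_le_one (by linarith)
  calc Y z (v, l) = min 1 (2 * Z z v l) * min 1 (2 - 2 * Z z v ((l : ℕ) + 1)) := rfl
    _ ≤ min 1 (2 * Z z v l) * 1 := mul_le_mul_of_nonneg_left (min_le_left _ _) e1
    _ ≤ 2 * Z z v l := by rw [mul_one]; exact min_le_right _ _

lemma continuous_Phi (G : SimpleGraph V) {H : (V × Fin L → ℝ) → V × Fin L → ℝ} (hH : Continuous H)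
    (h B : ℝ) : Continuous (Phi G H h B) := by
  refine continuous_pi fun p => ?_
  unfold Phi
  have h1 : Continuous (fun z => H (Y z) p) := (continuous_apply p).comp (hH.comp continuous_Y)
  have h2 := continuous_Z (L := L) p.1 ((p.2 : ℕ) + 2)
  have h3 : Continuous (fun z => ∑ u ∈ nb G p.1, Z z u ((p.2 : ℕ) + 2)) :=
    continuous_finsetSum _ fun u _ => continuous_Z (L := L) u ((p.2 : ℕ) + 2)
  exact (continuous_const.min (h1.div_const _)).max
    ((continuous_const.min (h3.div_const _)).max h2)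

lemma Phi_box (G : SimpleGraph V) {H : (V × Fin L → ℝ) → V × Fin L → ℝ} (h B : ℝ)
    {z : V × Fin L → ℝ} (hz : Box z) : Box (Phi G H h B z) := by
  intro p
  have h1 := Z_box hz p.1 ((p.2 : ℕ) + 2)
  refine ⟨?_, ?_⟩
  · exact h1.1.trans ((le_max_right _ _).trans (le_max_right _ _))
  · exact max_le (min_le_left _ _) (max_le (min_le_left _ _) h1.2)

lemma exists_fixed (G : SimpleGraph V) {H : (V × Fin L → ℝ) → V × Fin L → ℝ} (hH : Continuous H)
    (h B : ℝ) : ∃ z, Box z ∧ Phi G H h B z = z := by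
  obtain ⟨z, hz⟩ := Pool.Agent.Helper133.Brouwer.brouwer (fun z => Phi G H h B (clamp z))
    ((continuous_Phi G hH h B).comp continuous_clamp) 1 (by
      intro z
      rw [pi_norm_le_iff_of_nonneg zero_le_one]
      intro p
      have := Phi_box G (H := H) h B (clamp_box z) p
      rw [Real.norm_eq_abs, abs_of_nonneg this.1]
      exact this.2)
  have hb : Box z := by
    have := Phi_box G (H := H) h B (clamp_box z)
    rw [← hz]; exact this
  refine ⟨z, hb, ?_⟩
  have := hz
  simp only [clamp_eq hb] at this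
  exact this

/-- double counting -/
lemma sum_nb_le (G : SimpleGraph V) (f : V → ℝ) (hf : ∀ v, 0 ≤ f v) (d : ℝ)
    (hd : ∀ v, ((nb G v).card : ℝ) ≤ d) : ∑ v, ∑ u ∈ nb G v, f u ≤ d * ∑ v, f v := by
  have h1 : ∑ v, ∑ u ∈ nb G v, f u = ∑ u, ((nb G u).card : ℝ) * f u := by
    have h2 : ∀ v, ∑ u ∈ nb G v, f u = ∑ u, if G.Adj v u then f u else 0 := by
      intro v
      rw [nb, Finset.sum_filter]
    simp_rw [h2]
    rw [Finset.sum_comm]
    refine Finset.sum_congr rfl fun u _ => ?_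
    rw [← Finset.sum_filter, Finset.sum_const, nsmul_eq_mul, nb]
    congr 3
    ext v
    simp [G.adj_comm]
  rw [h1, Finset.mul_sum]
  exact Finset.sum_le_sum fun u _ => mul_le_mul_of_nonneg_right (hd u) (hf u)

lemma main (G : SimpleGraph V) {H : (V × Fin L → ℝ) → V × Fin L → ℝ} (a h d B : ℝ)
    (hH0 : ∀ y : V × Fin L → ℝ, Box y → ∀ p, 0 ≤ H y p)
    (hHa : ∀ y : V × Fin L → ℝ, Box y → ∀ l, ∑ v, H y (v, l) ≤ a * ∑ v, y (v, l))
    (hd : ∀ v, ((nb G v).card : ℝ) ≤ d) (h0 : 0 < h) (hB : 0 < B) (ha : 0 ≤ a) (hd0 : 0 ≤ d)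
    (hah : 4 * a * (d / B + 1) ≤ h) (hL : 1 ≤ L) (hV : Fintype.card V < 2 ^ (L - 1))
    {z : V × Fin L → ℝ} (hz : Box z) (hfix : Phi G H h B z = z) :
    (∀ v k, Z z v (k + 1) ≤ Z z v k) ∧ (∀ v, Z z v L < 1 / 2) ∧
    (∀ (v : V) (l : Fin L), min 1 (H (Y z) (v, l) / (2 * h)) ≤ Z z v ((l : ℕ) + 1)) ∧
    (∀ (v : V) (l : Fin L), min 1 ((∑ u ∈ nb G v, Z z u ((l : ℕ) + 2)) / B) ≤
      Z z v ((l : ℕ) + 1)) := by
  have hval : ∀ (v : V) (l : Fin L), Z z v ((l : ℕ) + 1) =
      max (min 1 (H (Y z) (v, l) / (2 * h)))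
        (max (min 1 ((∑ u ∈ nb G v, Z z u ((l : ℕ) + 2)) / B)) (Z z v ((l : ℕ) + 2))) := by
    intro v l
    have e1 : Z z v ((l : ℕ) + 1) = z (v, l) := by
      simp only [Z, l.2, dite_true, Fin.eta]
    rw [e1]
    conv_lhs => rw [← hfix]
    rfl
  have hmono : ∀ v k, Z z v (k + 1) ≤ Z z v k := by
    intro v k
    cases k with
    | zero => exact (Z_box hz v 1).2
    | succ k =>
      by_cases hk : k < L
      · have := hval v ⟨k, hk⟩
        simp only at this
        rw [this]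
        exact (le_max_right _ _).trans (le_max_right _ _)
      · have e1 : Z z v (k + 1 + 1) = 0 := by
          have : ¬ (k + 1 < L) := by omega
          simp only [Z, this, dite_false]
        rw [e1]
        exact (Z_box hz v _).1
  have hq : 0 ≤ d / B := div_nonneg hd0 hB.le
  -- the sums
  have hrec : ∀ l, l < L → ∑ v, Z z v (l + 1) ≤
      a / h * ∑ v, Z z v l + (d / B + 1) * ∑ v, Z z v (l + 2) := by
    intro l hl
    have hY := hHa (Y z) (Y_box hz) ⟨l, hl⟩
    have hY2 : ∑ v, Y z (v, ⟨l, hl⟩) ≤ 2 * ∑ v, Z z v l := by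
      rw [Finset.mul_sum]
      exact Finset.sum_le_sum fun v _ => Y_le hz v ⟨l, hl⟩
    have hY3 : ∑ v, H (Y z) (v, ⟨l, hl⟩) ≤ a * (2 * ∑ v, Z z v l) :=
      hY.trans (mul_le_mul_of_nonneg_left hY2 ha)
    have hpt : ∀ v, Z z v (l + 1) ≤ H (Y z) (v, ⟨l, hl⟩) / (2 * h) +
        ((∑ u ∈ nb G v, Z z u (l + 2)) / B + Z z v (l + 2)) := by
      intro v
      have e := hval v ⟨l, hl⟩
      simp only at e
      rw [e]
      have p1 : 0 ≤ H (Y z) (v, ⟨l, hl⟩) / (2 * h) :=
        div_nonneg (hH0 _ (Y_box hz) _) (by positivity)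
      have p2 : 0 ≤ (∑ u ∈ nb G v, Z z u (l + 2)) / B :=
        div_nonneg (Finset.sum_nonneg fun u _ => (Z_box hz u _).1) hB.le
      have p3 : 0 ≤ Z z v (l + 2) := (Z_box hz v _).1
      refine max_le ((min_le_right _ _).trans (by linarith)) (max_le ?_ (by linarith))
      exact (min_le_right _ _).trans (by linarith)
    calc ∑ v, Z z v (l + 1) ≤ ∑ v, (H (Y z) (v, ⟨l, hl⟩) / (2 * h) +
          ((∑ u ∈ nb G v, Z z u (l + 2)) / B + Z z v (l + 2))) :=
          Finset.sum_le_sum fun v _ => hpt v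
      _ = (∑ v, H (Y z) (v, ⟨l, hl⟩)) / (2 * h) +
          ((∑ v, ∑ u ∈ nb G v, Z z u (l + 2)) / B + ∑ v, Z z v (l + 2)) := by
          rw [Finset.sum_add_distrib, Finset.sum_add_distrib, Finset.sum_div, Finset.sum_div]
      _ ≤ (a * (2 * ∑ v, Z z v l)) / (2 * h) +
          ((d * ∑ v, Z z v (l + 2)) / B + ∑ v, Z z v (l + 2)) := by
          have q1 := sum_nb_le G (fun u => Z z u (l + 2)) (fun u => (Z_box hz u _).1) d hd
          have q2 : (∑ v, H (Y z) (v, ⟨l, hl⟩)) / (2 * h) ≤ (a * (2 * ∑ v, Z z v l)) / (2 * h) :=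
            div_le_div_of_nonneg_right hY3 (by positivity)
          have q3 : (∑ v, ∑ u ∈ nb G v, Z z u (l + 2)) / B ≤ (d * ∑ v, Z z v (l + 2)) / B :=
            div_le_div_of_nonneg_right q1 hB.le
          linarith
      _ = _ := by field_simp
  have hn : ∀ l, 0 ≤ ∑ v, Z z v l := fun l => Finset.sum_nonneg fun v _ => (Z_box hz v l).1
  have hdown : ∀ j l, l + j = L → ∑ v, Z z v (l + 1) ≤ 2 * a / h * ∑ v, Z z v l := by
    intro j
    induction j with
    | zero =>
      intro l hl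
      have : ∀ v, Z z v (l + 1) = 0 := by
        intro v
        have : ¬ (l < L) := by omega
        simp only [Z, this, dite_false]
      simp only [this, Finset.sum_const_zero]
      exact mul_nonneg (by positivity) (hn l)
    | succ j ih =>
      intro l hl
      have i1 := ih (l + 1) (by omega)
      have i2 := hrec l (by omega)
      have i3 : (d / B + 1) * ∑ v, Z z v (l + 2) ≤ 1 / 2 * ∑ v, Z z v (l + 1) := by
        calc (d / B + 1) * ∑ v, Z z v (l + 2) ≤
              (d / B + 1) * (2 * a / h * ∑ v, Z z v (l + 1)) :=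
              mul_le_mul_of_nonneg_left i1 (by linarith)
          _ = (4 * a * (d / B + 1)) / h * (1 / 2 * ∑ v, Z z v (l + 1)) := by
              field_simp; ring
          _ ≤ 1 * (1 / 2 * ∑ v, Z z v (l + 1)) := by
              apply mul_le_mul_of_nonneg_right _ (by have := hn (l + 1); linarith)
              rw [div_le_one h0]; exact hah
          _ = _ := one_mul _
      have i4 : 2 * a / h * ∑ v, Z z v l = 2 * (a / h * ∑ v, Z z v l) := by ring
      rw [i4]
      linarith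
  have hhalf : 2 * a / h ≤ 1 / 2 := by
    rw [div_le_iff₀ h0]
    have : 0 ≤ a * (d / B) := mul_nonneg ha hq
    nlinarith
  have hpow : ∀ l, l ≤ L → ∑ v, Z z v l ≤ (1 / 2) ^ l * Fintype.card V := by
    intro l
    induction l with
    | zero =>
      intro _
      simp [Z]
    | succ l ih =>
      intro hl
      have i1 := hdown (L - l) l (by omega)
      have i2 := ih (by omega)
      calc ∑ v, Z z v (l + 1) ≤ 2 * a / h * ∑ v, Z z v l := i1
        _ ≤ 1 / 2 * ∑ v, Z z v l := mul_le_mul_of_nonneg_right hhalf (hn l)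
        _ ≤ 1 / 2 * ((1 / 2) ^ l * Fintype.card V) := by linarith
        _ = _ := by ring
  refine ⟨hmono, ?_, ?_, ?_⟩
  · intro v
    have h1 : Z z v L ≤ ∑ v, Z z v L :=
      Finset.single_le_sum (f := fun v => Z z v L) (fun v _ => (Z_box hz v L).1) (mem_univ v)
    have h2 := hpow L le_rfl
    have h3 : ((Fintype.card V : ℕ) : ℝ) < 2 ^ (L - 1) := by exact_mod_cast hV
    have h4 : (1 / 2 : ℝ) ^ L * Fintype.card V < (1 / 2) ^ L * 2 ^ (L - 1) :=
      mul_lt_mul_of_pos_left h3 (by positivity)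
    have h5 : (1 / 2 : ℝ) ^ L * 2 ^ (L - 1) = 1 / 2 := by
      obtain ⟨m, rfl⟩ : ∃ m, L = m + 1 := ⟨L - 1, by omega⟩
      rw [Nat.add_sub_cancel, pow_succ, mul_assoc, mul_comm (1 / 2 : ℝ) (2 ^ m), ← mul_assoc,
        ← mul_pow]
      norm_num
    linarith
  · intro v l
    rw [hval v l]
    exact le_max_left _ _
  · intro v l
    rw [hval v l]
    exact (le_max_left _ _).trans (le_max_right _ _)

end

theorem s_lev : S_LEV := by
  intro V _ G L H a h d B hHc hH0 hHa hd h0 hB ha hd0 hah hL hV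
  obtain ⟨z, hz, hfix⟩ := exists_fixed G hHc h B
  obtain ⟨hmono, hlast, hHz, hSz⟩ := main G a h d B hH0 hHa hd h0 hB ha hd0 hah hL hV hz hfix
  have hanti : ∀ v, Antitone (Z z v) := fun v => antitone_nat_of_succ_le (hmono v)
  -- the last level with `1/2 ≤ Z`
  have hex : ∀ v, ∃ l : Fin L, 1 / 2 ≤ Z z v l ∧ Z z v ((l : ℕ) + 1) < 1 / 2 := by
    intro v
    have h1 : ∃ k, Z z v k < 1 / 2 := ⟨L, hlast v⟩
    have h2 : Nat.find h1 ≤ L := Nat.find_min' h1 (hlast v)
    have h3 : Nat.find h1 ≠ 0 := by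
      intro h0
      have := Nat.find_spec h1
      rw [h0] at this
      simp only [Z] at this
      norm_num at this
    obtain ⟨k, hk⟩ := Nat.exists_eq_succ_of_ne_zero h3
    refine ⟨⟨k, by omega⟩, ?_, ?_⟩
    · have := Nat.find_min h1 (m := k) (by omega)
      simpa using this
    · have := Nat.find_spec h1
      rw [hk] at this
      exact this
  choose cl hcl1 hcl2 using hex
  refine ⟨cl, Y z, Y_box hz, ?_, ?_, ?_⟩
  · intro v
    have e1 : min 1 (2 * Z z v (cl v)) = 1 := min_eq_left (by have := hcl1 v; linarith)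
    have e2 : min 1 (2 - 2 * Z z v ((cl v : ℕ) + 1)) = 1 :=
      min_eq_left (by have := hcl2 v; linarith)
    simp only [Y, e1, e2, mul_one]
  · intro v
    have h1 := (hHz v (cl v)).trans_lt (hcl2 v)
    rcases min_lt_iff.1 h1 with h2 | h2
    · norm_num at h2
    · rw [div_lt_iff₀ (by positivity)] at h2
      linarith
  · intro v
    have h1 := (hSz v (cl v)).trans_lt (hcl2 v)
    rcases min_lt_iff.1 h1 with h2 | h2
    · norm_num at h2
    · rw [div_lt_iff₀ hB] at h2
      have h3 : ((((nb G v).filter (fun u => (cl v : ℕ) + 2 ≤ cl u)).card : ℝ)) * (1 / 2) ≤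
          ∑ u ∈ nb G v, Z z u ((cl v : ℕ) + 2) := by
        calc ((((nb G v).filter (fun u => (cl v : ℕ) + 2 ≤ cl u)).card : ℝ)) * (1 / 2) =
            ∑ u ∈ (nb G v).filter (fun u => (cl v : ℕ) + 2 ≤ cl u), (1 / 2 : ℝ) := by
              rw [Finset.sum_const, nsmul_eq_mul]
          _ ≤ ∑ u ∈ (nb G v).filter (fun u => (cl v : ℕ) + 2 ≤ cl u),
              Z z u ((cl v : ℕ) + 2) := by
              refine Finset.sum_le_sum fun u hu => ?_
              exact (hcl1 u).trans (hanti u (Finset.mem_filter.1 hu).2)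
          _ ≤ _ := Finset.sum_le_sum_of_subset_of_nonneg (Finset.filter_subset _ _)
              fun u _ _ => (Z_box hz u _).1
      linarith

end Pool.Agent.K1H10.UNI
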